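import Pool.Agent.Helper54.SAW2.Stmts

set_option autoImplicit false

/-!
# Planar self-avoiding walks, block 10: dyadic covering of the near walks
-/

namespace Pool.Agent.Helper47.SAW2

open Pool.Agent.Helper54.SAW Pool.Agent.Helper54.SAW2

theorem X_le_length (l : List St) : X l ≤ l.length := by
  induction l with
  | nil => simp [X]
  | cons s l ih =>
    have h1 : X (s :: l) = dx s + X l := by simp [X]
    have h2 : ∀ s : St, dx s ≤ 1 := by decide
    have h2 := h2 s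
    rw [h1, List.length_cons]
    push_cast
    omega

theorem px_le {n : ℕ} {l : List St} (h : l ∈ SAWs n) (t : ℕ) : px l t ≤ n := by
  have h1 := X_le_length (l.take t)
  have h2 : (l.take t).length ≤ n := by
    rw [List.length_take, (mem_SAWs_iff.1 h).1]
    exact min_le_right _ _
  unfold px
  have h3 : ((l.take t).length : ℤ) ≤ n := by exact_mod_cast h2
  exact h1.trans h3

open Classical in
theorem DA_le {n M R : ℕ} {l : List St} (h : l ∈ NearP n M R) : DA n R l ≤ n := by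
  rw [mem_NearP] at h
  unfold DA dA
  refine (Nat.findGreatest_le _).trans ?_
  have := px_le h.1 (tip n l)
  omega

open Classical in
theorem DB_le {n M R : ℕ} {l : List St} (h : l ∈ NearP n M R) : DB n R l ≤ n := by
  rw [mem_NearP] at h
  unfold DB dB
  refine (Nat.findGreatest_le _).trans ?_
  have h1 := px_le h.1 (tip n l)
  have h2 := (abs_le.1 h.2.2.1).1
  omega

/-- dyadic localisation -/
theorem dyadic (q D n : ℕ) (hq : 1 ≤ q) (hD : 2 * q ≤ D) (hn : D ≤ n) :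
    ∃ k j : ℕ, k < Nat.log 2 n + 1 ∧ 1 ≤ 2 ^ k / q ∧ j < 2 * q ∧
      2 ^ k + j * (2 ^ k / q) ≤ D ∧ D < 2 ^ k + j * (2 ^ k / q) + 2 ^ k / q := by
  have hD0 : D ≠ 0 := by omega
  obtain ⟨k, hk⟩ : ∃ k, k = Nat.log 2 D := ⟨_, rfl⟩
  have h1 : 2 ^ k ≤ D := by rw [hk]; exact Nat.pow_log_le_self 2 hD0
  have h2 : D < 2 ^ (k + 1) := by rw [hk]; exact Nat.lt_pow_succ_log_self (by norm_num) D
  have h2' : D < 2 * 2 ^ k := by rw [pow_succ] at h2; omega
  have h3 : 1 ≤ 2 ^ k / q := by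
    rw [Nat.one_le_div_iff (by omega)]
    omega
  obtain ⟨θ, hθ⟩ : ∃ θ, θ = 2 ^ k / q := ⟨_, rfl⟩
  refine ⟨k, (D - 2 ^ k) / θ, ?_, h3, ?_⟩
  · have := Nat.log_mono_right (b := 2) hn
    omega
  rw [← hθ] at h3 ⊢
  have h4 : θ * ((D - 2 ^ k) / θ) + (D - 2 ^ k) % θ = D - 2 ^ k := Nat.div_add_mod _ _
  have h5 : (D - 2 ^ k) % θ < θ := Nat.mod_lt _ (by omega)
  obtain ⟨j, hj⟩ : ∃ j, j = (D - 2 ^ k) / θ := ⟨_, rfl⟩
  rw [← hj] at h4 ⊢
  have h6 : q * θ + 2 ^ k % q = 2 ^ k := by rw [hθ]; exact Nat.div_add_mod _ _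
  have h7 : 2 ^ k % q < q := Nat.mod_lt _ (by omega)
  have h8 : j * θ = θ * j := Nat.mul_comm _ _
  refine ⟨?_, by omega, by omega⟩
  · by_contra hc
    push Not at hc
    have h9 : 2 * q * θ ≤ j * θ := Nat.mul_le_mul_right _ hc
    have h10 : q * 1 ≤ q * θ := Nat.mul_le_mul_left _ h3
    have h11 : 2 * q * θ = q * θ + q * θ := by ring
    omega

/-- block 10, combinatorial part -/
theorem cover_nat (hA : CardAS) (hB : CardBS) (sA : SmallAS) (sB : SmallBS) (n M R : ℕ)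
    (hM : 2 * R + 1 ≤ M) :
    ((NearP n M R).card : ℝ) ≤
      (4 * (2 * ((Nat.log 2 n + 4 : ℕ) + 1 : ℝ)) +
        2 * ((Nat.log 2 n + 1 : ℝ) * (2 * (2 * ((Nat.log 2 n + 4 : ℕ) + 1 : ℝ)))) *
          (3 + 16 / 3 * Real.log (n + 1))) * (Far n M).card := by
  classical
  set K := Nat.log 2 n + 4 with hK
  set q := 2 * (K + 1) with hq
  have hK2 : 8 * (n + 1) ≤ 2 ^ K := by
    have : n < 2 ^ (Nat.log 2 n + 1) := Nat.lt_pow_succ_log_self (by norm_num) n
    have h2 : 2 ^ K = 8 * 2 ^ (Nat.log 2 n + 1) := by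
      rw [hK, show Nat.log 2 n + 4 = (Nat.log 2 n + 1) + 3 by ring, pow_add]
      ring
    omega
  set I := ((Finset.range (Nat.log 2 n + 1)).filter (fun k => 1 ≤ 2 ^ k / q)) ×ˢ
    Finset.range (2 * q) with hI
  have hIcard : I.card ≤ (Nat.log 2 n + 1) * (2 * q) := by
    rw [hI, Finset.card_product, Finset.card_range]
    refine Nat.mul_le_mul_right _ ?_
    refine (Finset.card_filter_le _ _).trans ?_
    rw [Finset.card_range]
  have hsub : NearP n M R ⊆ ((NearP n M R).filter (fun l => DA n R l < 2 * q)) ∪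
      ((NearP n M R).filter (fun l => DB n R l < 2 * q)) ∪
      (I.biUnion (fun p => clsA n M R (2 ^ p.1 + p.2 * (2 ^ p.1 / q)) (2 ^ p.1 / q))) ∪
      (I.biUnion (fun p => clsB n M R (2 ^ p.1 + p.2 * (2 ^ p.1 / q)) (2 ^ p.1 / q))) := by
    intro l hl
    by_cases h1 : DA n R l < 2 * q
    · refine Finset.mem_union_left _ (Finset.mem_union_left _ (Finset.mem_union_left _ ?_))
      rw [Finset.mem_filter]
      exact ⟨hl, h1⟩
    by_cases h2 : DB n R l < 2 * q
    · refine Finset.mem_union_left _ (Finset.mem_union_left _ (Finset.mem_union_right _ ?_))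
      rw [Finset.mem_filter]
      exact ⟨hl, h2⟩
    rw [not_lt] at h1 h2
    rcases le_total (DA n R l) (DB n R l) with h | h
    · obtain ⟨k, j, hk, hθ, hj, ha, hb⟩ := dyadic q (DA n R l) n (by omega) h1 (DA_le hl)
      refine Finset.mem_union_left _ (Finset.mem_union_right _ ?_)
      rw [Finset.mem_biUnion]
      refine ⟨(k, j), ?_, ?_⟩
      · rw [hI, Finset.mem_product, Finset.mem_filter, Finset.mem_range, Finset.mem_range]
        exact ⟨⟨hk, hθ⟩, hj⟩
      · unfold clsA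
        rw [Finset.mem_filter]
        exact ⟨hl, ha, hb, ha.trans h⟩
    · obtain ⟨k, j, hk, hθ, hj, ha, hb⟩ := dyadic q (DB n R l) n (by omega) h2 (DB_le hl)
      refine Finset.mem_union_right _ ?_
      rw [Finset.mem_biUnion]
      refine ⟨(k, j), ?_, ?_⟩
      · rw [hI, Finset.mem_product, Finset.mem_filter, Finset.mem_range, Finset.mem_range]
        exact ⟨⟨hk, hθ⟩, hj⟩
      · unfold clsB
        rw [Finset.mem_filter]
        exact ⟨hl, ha, hb, ha.trans h⟩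
  have hpar : ∀ p ∈ I, 1 ≤ 2 ^ p.1 / q ∧
      2 * (K + 1) * (2 ^ p.1 / q) ≤ 2 ^ p.1 + p.2 * (2 ^ p.1 / q) := by
    intro p hp
    rw [hI, Finset.mem_product, Finset.mem_filter] at hp
    refine ⟨hp.1.2, ?_⟩
    rw [← hq]
    exact (Nat.mul_div_le _ _).trans (Nat.le_add_right _ _)
  have hcA : ∀ p ∈ I, ((clsA n M R (2 ^ p.1 + p.2 * (2 ^ p.1 / q)) (2 ^ p.1 / q)).card : ℝ) ≤
      (3 + 16 / 3 * Real.log (n + 1)) * (Far n M).card := fun p hp =>
    hA n M R _ _ K hM (hpar p hp).1 hK2 (hpar p hp).2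
  have hcB : ∀ p ∈ I, ((clsB n M R (2 ^ p.1 + p.2 * (2 ^ p.1 / q)) (2 ^ p.1 / q)).card : ℝ) ≤
      (3 + 16 / 3 * Real.log (n + 1)) * (Far n M).card := fun p hp =>
    hB n M R _ _ K hM (hpar p hp).1 hK2 (hpar p hp).2
  have hlog : 0 ≤ Real.log ((n : ℝ) + 1) := Real.log_nonneg (by
    have : (0 : ℝ) ≤ n := Nat.cast_nonneg n
    linarith)
  have hF : (0 : ℝ) ≤ (Far n M).card := Nat.cast_nonneg _
  set W : ℝ := (3 + 16 / 3 * Real.log (n + 1)) * (Far n M).card with hW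
  have hW0 : 0 ≤ W := by
    rw [hW]
    exact mul_nonneg (by linarith) hF
  have hUA : ((I.biUnion (fun p => clsA n M R (2 ^ p.1 + p.2 * (2 ^ p.1 / q))
      (2 ^ p.1 / q))).card : ℝ) ≤ ((Nat.log 2 n + 1) * (2 * q) : ℕ) * W := by
    calc ((I.biUnion (fun p => clsA n M R (2 ^ p.1 + p.2 * (2 ^ p.1 / q))
          (2 ^ p.1 / q))).card : ℝ)
        ≤ ((∑ p ∈ I, (clsA n M R (2 ^ p.1 + p.2 * (2 ^ p.1 / q)) (2 ^ p.1 / q)).card : ℕ) : ℝ) := by
          exact_mod_cast Finset.card_biUnion_le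
      _ ≤ ∑ _p ∈ I, W := by
          push_cast
          exact Finset.sum_le_sum hcA
      _ = (I.card : ℝ) * W := by rw [Finset.sum_const, nsmul_eq_mul]
      _ ≤ _ := by
          refine mul_le_mul_of_nonneg_right ?_ hW0
          exact_mod_cast hIcard
  have hUB : ((I.biUnion (fun p => clsB n M R (2 ^ p.1 + p.2 * (2 ^ p.1 / q))
      (2 ^ p.1 / q))).card : ℝ) ≤ ((Nat.log 2 n + 1) * (2 * q) : ℕ) * W := by
    calc ((I.biUnion (fun p => clsB n M R (2 ^ p.1 + p.2 * (2 ^ p.1 / q))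
          (2 ^ p.1 / q))).card : ℝ)
        ≤ ((∑ p ∈ I, (clsB n M R (2 ^ p.1 + p.2 * (2 ^ p.1 / q)) (2 ^ p.1 / q)).card : ℕ) : ℝ) := by
          exact_mod_cast Finset.card_biUnion_le
      _ ≤ ∑ _p ∈ I, W := by
          push_cast
          exact Finset.sum_le_sum hcB
      _ = (I.card : ℝ) * W := by rw [Finset.sum_const, nsmul_eq_mul]
      _ ≤ _ := by
          refine mul_le_mul_of_nonneg_right ?_ hW0
          exact_mod_cast hIcard
  have hSA : ((((NearP n M R).filter (fun l => DA n R l < 2 * q)).card : ℕ) : ℝ) ≤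
      (2 * q : ℕ) * (Far n M).card := by exact_mod_cast sA n M R (2 * q) hM
  have hSB : ((((NearP n M R).filter (fun l => DB n R l < 2 * q)).card : ℕ) : ℝ) ≤
      (2 * q : ℕ) * (Far n M).card := by exact_mod_cast sB n M R (2 * q) hM
  have htot : ((NearP n M R).card : ℝ) ≤
      (((NearP n M R).filter (fun l => DA n R l < 2 * q)).card : ℝ) +
      (((NearP n M R).filter (fun l => DB n R l < 2 * q)).card : ℝ) +
      ((I.biUnion (fun p => clsA n M R (2 ^ p.1 + p.2 * (2 ^ p.1 / q)) (2 ^ p.1 / q))).card : ℝ) +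
      ((I.biUnion (fun p => clsB n M R (2 ^ p.1 + p.2 * (2 ^ p.1 / q))
        (2 ^ p.1 / q))).card : ℝ) := by
    have h1 := (Finset.card_le_card hsub).trans (Finset.card_union_le _ _)
    have h2 := Finset.card_union_le (((NearP n M R).filter (fun l => DA n R l < 2 * q)) ∪
      ((NearP n M R).filter (fun l => DB n R l < 2 * q)))
      (I.biUnion (fun p => clsA n M R (2 ^ p.1 + p.2 * (2 ^ p.1 / q)) (2 ^ p.1 / q)))
    have h3 := Finset.card_union_le ((NearP n M R).filter (fun l => DA n R l < 2 * q))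
      ((NearP n M R).filter (fun l => DB n R l < 2 * q))
    have h4 := h1.trans (Nat.add_le_add_right (h2.trans (Nat.add_le_add_right h3 _)) _)
    exact_mod_cast h4
  have hqr : ((q : ℕ) : ℝ) = 2 * ((K : ℝ) + 1) := by rw [hq]; push_cast; ring
  have e1 : ((2 * q : ℕ) : ℝ) = 2 * (2 * ((K : ℝ) + 1)) := by rw [Nat.cast_mul, hqr]; norm_num
  have e2 : (((Nat.log 2 n + 1) * (2 * q) : ℕ) : ℝ) =
      ((Nat.log 2 n : ℝ) + 1) * (2 * (2 * ((K : ℝ) + 1))) := by
    rw [Nat.cast_mul, e1]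
    push_cast
    ring
  rw [e1] at hSA hSB
  rw [e2] at hUA hUB
  calc ((NearP n M R).card : ℝ) ≤ _ := htot
    _ ≤ 2 * (2 * ((K : ℝ) + 1)) * (Far n M).card + 2 * (2 * ((K : ℝ) + 1)) * (Far n M).card +
        ((Nat.log 2 n : ℝ) + 1) * (2 * (2 * ((K : ℝ) + 1))) * W +
        ((Nat.log 2 n : ℝ) + 1) * (2 * (2 * ((K : ℝ) + 1))) * W := by linarith
    _ = _ := by
        rw [hW]
        ring

/-- block 10 -/
theorem cover (hA : CardAS) (hB : CardBS) (sA : SmallAS) (sB : SmallBS) : CoverS := by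
  refine ⟨4000, by norm_num, ?_⟩
  intro n M R hn hM
  refine (cover_nat hA hB sA sB n M R hM).trans ?_
  refine mul_le_mul_of_nonneg_right ?_ (Nat.cast_nonneg _)
  have hn' : (2 : ℝ) ≤ n := by exact_mod_cast hn
  set L := Real.log n with hL
  have hlog2 : 0.6931 < Real.log 2 := by
    have := Real.log_two_gt_d9
    linarith
  have hL2 : Real.log 2 ≤ L := Real.log_le_log (by norm_num) hn'
  have hL1 : 0.6931 ≤ L := by linarith
  have hk : (Nat.log 2 n : ℝ) * Real.log 2 ≤ L := by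
    have h1 : (2 : ℝ) ^ (Nat.log 2 n) ≤ n := by
      exact_mod_cast Nat.pow_log_le_self 2 (by omega)
    have h2 := Real.log_le_log (by positivity) h1
    rwa [Real.log_pow] at h2
  have hk0 : (0 : ℝ) ≤ Nat.log 2 n := Nat.cast_nonneg _
  have hk1 : (Nat.log 2 n : ℝ) ≤ 3 / 2 * L := by nlinarith
  have h1L : (1 : ℝ) ≤ 3 / 2 * L := by linarith
  have hlog : Real.log ((n : ℝ) + 1) ≤ 2 * L := by
    have h1 : (n : ℝ) + 1 ≤ (n : ℝ) ^ 2 := by nlinarith
    have h2 := Real.log_le_log (by linarith) h1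
    rw [Real.log_pow] at h2
    exact_mod_cast h2
  have hlog0 : 0 ≤ Real.log ((n : ℝ) + 1) := Real.log_nonneg (by linarith)
  push_cast
  set k : ℝ := (Nat.log 2 n : ℝ) with hkdef
  have b1 : k + 1 ≤ 3 * L := by linarith
  have b2 : 2 * (k + 4 + 1) ≤ 18 * L := by linarith
  have b3 : 3 + 16 / 3 * Real.log ((n : ℝ) + 1) ≤ 16 * L := by linarith
  have c1 : (k + 1) * (2 * (2 * (k + 4 + 1))) ≤ (3 * L) * (2 * (18 * L)) := by
    apply mul_le_mul b1 _ (by positivity) (by linarith)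
    linarith
  have c2 : 2 * ((k + 1) * (2 * (2 * (k + 4 + 1)))) * (3 + 16 / 3 * Real.log ((n : ℝ) + 1)) ≤
      2 * ((3 * L) * (2 * (18 * L))) * (16 * L) := by
    apply mul_le_mul _ b3 (by positivity) (by positivity)
    linarith
  have c3 : 4 * (2 * (k + 4 + 1)) ≤ 72 * L := by linarith
  have c4 : L ≤ 9 / 4 * L ^ 3 := by
    have : 1 ≤ (3 / 2 * L) ^ 2 := one_le_pow₀ h1L
    nlinarith
  nlinarith [pow_pos (show 0 < L by linarith) 3]

end Pool.Agent.Helper47.SAW2
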